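import Pool.Agent.W734.STS.Stms

/-! STS-VIO: occurrences of `A A A X` cost energy. -/

set_option autoImplicit false

namespace Pool.Agent.W917.STS

open Pool.Agent.W734.STS

open Classical in
/-- positions with a property of the letters from there on -/
noncomputable def NS (R : (ℕ → Option (Fin 2)) → Prop) (u : List (Fin 2)) : Finset ℕ :=
  (Finset.range u.length).filter (fun t => R (fun s => u[t + s]?))

theorem mem_NS (R : (ℕ → Option (Fin 2)) → Prop) (u : List (Fin 2)) (t : ℕ) :
    t ∈ NS R u ↔ t < u.length ∧ R (fun s => u[t + s]?) := by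
  classical
  unfold NS
  rw [Finset.mem_filter, Finset.mem_range]

/-- number of positions with a property of the letters from there on -/
noncomputable def N (R : (ℕ → Option (Fin 2)) → Prop) (u : List (Fin 2)) : ℕ := (NS R u).card

theorem N_append (R : (ℕ → Option (Fin 2)) → Prop) (w u : List (Fin 2)) :
    N R u ≤ N R (w ++ u) := by
  classical
  unfold N
  rw [← Finset.card_map (addRightEmbedding w.length)]
  refine Finset.card_le_card ?_
  intro x hx
  rw [Finset.mem_map] at hx
  obtain ⟨t, ht, rfl⟩ := hx
  rw [mem_NS] at ht ⊢
  refine ⟨?_, ?_⟩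
  · rw [List.length_append]
    show t + w.length < _
    omega
  · have e : (fun s => (w ++ u)[(addRightEmbedding w.length) t + s]?) = fun s => u[t + s]? := by
      funext s
      show (w ++ u)[t + w.length + s]? = u[t + s]?
      rw [List.getElem?_append_right (by omega)]
      congr 1
      omega
    rw [e]
    exact ht.2

theorem N_append_hit (R : (ℕ → Option (Fin 2)) → Prop) (w u : List (Fin 2))
    (h : ∃ p < w.length, R (fun s => (w ++ u)[p + s]?)) :
    N R u + 1 ≤ N R (w ++ u) := by
  classical
  obtain ⟨p, hp, hR⟩ := h
  unfold N
  rw [← Finset.card_map (addRightEmbedding w.length)]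
  have hnot : p ∉ Finset.map (addRightEmbedding w.length) (NS R u) := by
    intro hx
    rw [Finset.mem_map] at hx
    obtain ⟨t, _, ht⟩ := hx
    have : t + w.length = p := ht
    omega
  rw [← Finset.card_insert_of_notMem hnot]
  refine Finset.card_le_card ?_
  intro x hx
  rw [Finset.mem_insert] at hx
  rcases hx with rfl | hx
  · rw [mem_NS, List.length_append]
    exact ⟨by omega, hR⟩
  · rw [Finset.mem_map] at hx
    obtain ⟨t, ht, rfl⟩ := hx
    rw [mem_NS] at ht ⊢
    refine ⟨?_, ?_⟩
    · rw [List.length_append]
      show t + w.length < _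
      omega
    · have e : (fun s => (w ++ u)[(addRightEmbedding w.length) t + s]?) = fun s => u[t + s]? := by
        funext s
        show (w ++ u)[t + w.length + s]? = u[t + s]?
        rw [List.getElem?_append_right (by omega)]
        congr 1
        omega
      rw [e]
      exact ht.2

/-- the word of a list of blocks -/
def fl (i : ℕ) (L : List Blk) : List (Fin 2) := (L.map (wd i)).flatten

theorem fl_cons (i : ℕ) (a : Blk) (L : List Blk) : fl i (a :: L) = wd i a ++ fl i L := rfl

theorem Q_le (R : (ℕ → Option (Fin 2)) → Prop) (i : ℕ)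
    (h : ∀ (X : Blk) (rest : List Blk), (X = Blk.A ∨ X = Blk.B) →
      ∃ p < (wd i Blk.A).length, R (fun s => (fl i (Blk.A :: Blk.A :: Blk.A :: X :: rest))[p + s]?)) :
    ∀ L : List Blk, Q L ≤ N R (fl i L) := by
  intro L
  induction L with
  | nil => exact Nat.zero_le _
  | cons a t ih =>
    rw [Q, fl_cons]
    split_ifs with hc
    · obtain ⟨h0, h1, h2, h3⟩ := hc
      have key : N R (fl i t) + 1 ≤ N R (wd i a ++ fl i t) := by
        refine N_append_hit R _ _ ?_
        subst h0
        rcases t with _ | ⟨b, _ | ⟨c, _ | ⟨X, rest⟩⟩⟩
        · simp at h1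
        · simp at h2
        · simp at h3
        · have hb : b = Blk.A := by simpa using h1
          have hc : c = Blk.A := by simpa using h2
          have hX : X = Blk.A ∨ X = Blk.B := by simpa using h3
          subst hb hc
          exact h X rest hX
      omega
    · have := N_append R (wd i a) (fl i t)
      omega

theorem V_eq (d : ℕ) (u : List (Fin 2)) :
    V d u = N (fun g => g 0 = some 0 ∧ g d = some 0) u := by
  unfold V N
  refine congrArg Finset.card ?_
  ext t
  rw [mem_NS, Finset.mem_filter, Finset.mem_range]
  rfl

theorem T_eq (u : List (Fin 2)) :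
    T u = N (fun g => g 0 = some 1 ∧ g 1 = some 1 ∧ g 2 = some 1) u := by
  unfold T N
  refine congrArg Finset.card ?_
  ext t
  rw [mem_NS, Finset.mem_filter, Finset.mem_range]
  rfl

/-- the last letter `0` of the Fibonacci words -/
theorem S_last : ∀ n : ℕ, ∃ pre : List (Fin 2),
    S (n + 2) = pre ++ (0 :: (if n % 2 = 0 then [] else [1]))
  | 0 => ⟨[1], rfl⟩
  | 1 => ⟨[1], rfl⟩
  | (n + 2) => by
    obtain ⟨pre, h⟩ := S_last n
    refine ⟨S (n + 3) ++ pre, ?_⟩
    have e : S (n + 2 + 2) = S (n + 3) ++ S (n + 2) := rfl
    have e2 : (n + 2) % 2 = n % 2 := by omega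
    rw [e, h, e2, List.append_assoc]

theorem vio : S_WD → S_VIO := by
  rintro ⟨_, hw, _, hlen, _⟩ u
  refine ⟨?_, ?_⟩
  · have h := Q_le (fun g => g 0 = some 1 ∧ g 1 = some 1 ∧ g 2 = some 1) 0 ?_ (P u 0)
    · have e : fl 0 (P u 0) = u := hw u 0
      rw [e, ← T_eq] at h
      exact h
    · intro X rest _
      exact ⟨0, by simp [wd, S], rfl, rfl, rfl⟩
  · intro i hi
    have h := Q_le (fun g => g 0 = some 0 ∧ g (D i) = some 0) i ?_ (P u i)
    · have e : fl i (P u i) = u := hw u i
      rw [e, ← V_eq] at h
      exact h
    · intro X rest hX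
      rcases Nat.lt_or_ge i 2 with h2 | h2
      · have h1 : i = 1 := by omega
        subst h1
        exact ⟨1, by simp [wd, S], rfl, rfl⟩
      · obtain ⟨n, rfl⟩ : ∃ n, i = n + 2 := ⟨i - 2, by omega⟩
        obtain ⟨pre0, h0⟩ := S_last n
        obtain ⟨pre1, h1⟩ := S_last (n + 1)
        have hA : wd (n + 2) Blk.A = S (n + 3) := rfl
        obtain ⟨r, hr⟩ : ∃ r, wd (n + 2) X = S (n + 2) ++ r := by
          rcases hX with rfl | rfl
          · exact ⟨S (n + 1), rfl⟩
          · exact ⟨[], by simp [wd]⟩
        have l0 := congrArg List.length h0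
        have l1 := congrArg List.length h1
        rw [hlen, List.length_append, List.length_cons] at l0 l1
        have f1 : Nat.fib (n + 2 + 4) = Nat.fib (n + 4) + Nat.fib (n + 5) := Nat.fib_add_two
        have f2 : Nat.fib (n + 5) = Nat.fib (n + 3) + Nat.fib (n + 4) := Nat.fib_add_two
        have f3 : 2 ≤ Nat.fib (n + 3) := by
          have := Nat.fib_mono (show 3 ≤ n + 3 by omega)
          simpa [Nat.fib] using this
        have hsuf : pre1.length + D (n + 2) = 3 * Nat.fib (n + 4) + pre0.length := by
          unfold D
          have e1 : n + 1 + 2 + 1 = n + 4 := by ring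
          have e2 : n + 2 + 1 = n + 3 := by ring
          rw [e1] at l1
          rw [e2] at l0
          rcases Nat.mod_two_eq_zero_or_one n with hn | hn
          · rw [if_pos hn] at l0
            rw [if_neg (by omega)] at l1
            rw [if_pos (by omega), f1, f2]
            simp only [List.length_nil, List.length_cons] at l0 l1
            omega
          · rw [if_neg (by omega)] at l0
            rw [if_pos (by omega)] at l1
            rw [if_neg (by omega), f1, f2]
            simp only [List.length_nil, List.length_cons] at l0 l1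
            omega
        refine ⟨pre1.length, ?_, ?_, ?_⟩
        · rw [hA, show n + 3 = n + 1 + 2 from rfl, h1, List.length_append, List.length_cons]
          omega
        · show (fl (n + 2) (Blk.A :: Blk.A :: Blk.A :: X :: rest))[pre1.length + 0]? = some 0
          rw [fl_cons, hA, show n + 3 = n + 1 + 2 from rfl, h1, List.append_assoc,
            List.getElem?_append_right (by omega)]
          simp
        · show (fl (n + 2) (Blk.A :: Blk.A :: Blk.A :: X :: rest))[pre1.length + D (n + 2)]? = some 0
          rw [hsuf, fl_cons, fl_cons, fl_cons, fl_cons, hA, hr, h0]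
          have lA : (S (n + 3)).length = Nat.fib (n + 4) := hlen (n + 3)
          rw [List.getElem?_append_right (by omega), List.getElem?_append_right (by omega),
            List.getElem?_append_right (by omega), List.append_assoc, List.append_assoc,
            List.getElem?_append_right (by omega)]
          have e : 3 * Nat.fib (n + 4) + pre0.length - (S (n + 3)).length - (S (n + 3)).length -
              (S (n + 3)).length - pre0.length = 0 := by omega
          rw [e]
          rfl

end Pool.Agent.W917.STS
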